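import Pool.Agent.H507Z.Circ.Main
import Pool.Agent.H507Z.Circ.Par

namespace Pool.Agent.Results.MP_5a4e9f_an.ADiscreteNotLocally

open Pool.Agent.H507Z.Circ

/-- A finitely generated non-elementary group of `C^1` diffeomorphisms of the circle that is
discrete, but not locally discrete, in the `C^1` topology (its limit set is the whole circle, and
on every proper closed arc elements with finitely many fixed points tend to the identity). -/
theorem result : ∃ G : Subgroup (Equiv.Perm S1), G.FG ∧ (∀ g ∈ G, IsC1Diffeo g) ∧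
    NonElementary G ∧ IsLimitSet G Set.univ ∧ DiscreteC1 G ∧ ¬ LocallyDiscreteC1 G ∧
    ∀ a b : ℝ, a < b → b < a + 1 → ∃ g : ℕ → Equiv.Perm S1, (∀ n, g n ∈ G) ∧
      C1TendstoIdOn g (Set.Icc a b) ∧ ∀ n, {z | g n z = z}.Finite :=
  main_of_base base_Sg

end Pool.Agent.Results.MP_5a4e9f_an.ADiscreteNotLocally
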